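import Pool.Agent.H2.Sos1

set_option autoImplicit false

namespace Pool.Agent.Results.MP_f19a21_co.Sos

open Filter Pool.Agent.H2.Sos

theorem result (W : Type) [Fintype W] (H : SimpleGraph W) (hH : H.chromaticNumber = 3)
    (ε : ℝ) (hε : 0 < ε) : ∃ r₀ : ℕ, ∀ r ≥ r₀, ∃ n₀ : ℕ, ∀ n ≥ n₀, ∀ F ≤ cyc n r,
      (cc + ε) * (r * n) ≤ F.edgeSet.ncard → H.IsContained F := by
  obtain ⟨K, hK, h⟩ := windows (SimpleGraph.chromaticNumber_le_iff_colorable.1 hH.le)
    (show 0 < ε / 64 by positivity)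
  refine eventually_atTop.1 ?_
  filter_upwards [thr_ev (half_pos hε), eventually_gt_atTop 0,
    tendsto_natCast_atTop_atTop.eventually_ge_atTop (16 * K / ε)] with r h1 h2 h3
  refine eventually_atTop.1 ?_
  filter_upwards [h1, eventually_ge_atTop r,
    tendsto_natCast_atTop_atTop.eventually_gt_atTop (8 * r / ε)] with n h4 h5 h6 F hF h7
  by_contra c
  have h8 := h n r h2 F hF c
  have r1 : (1 : ℝ) ≤ r := by exact_mod_cast h2
  have n1 : (r : ℝ) ≤ n := by exact_mod_cast h5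
  rw [div_le_iff₀ hε] at h3
  rw [div_lt_iff₀ hε] at h6
  have a1 : (n : ℝ) / r + 1 ≤ 2 * n / r := by
    rw [div_add_one (by positivity), div_le_div_iff_of_pos_right (by positivity)]; linarith
  have a2 : ε / 64 * (2 * r) ^ 2 + K ≤ ε / 8 * r ^ 2 := by
    nlinarith [mul_le_mul_of_nonneg_left r1 (show 0 ≤ r * ε by positivity)]
  have a3 := mul_le_mul a1 a2 (by positivity) (by positivity)
  rw [show 2 * n / r * (ε / 8 * r ^ 2) = ε / 4 * (r * n) by field_simp; ring] at a3
  nlinarith [mul_lt_mul_of_pos_left h6 (show (0 : ℝ) < r by linarith),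
    mul_pos hε (show (0 : ℝ) < r * n by nlinarith)]

end Pool.Agent.Results.MP_f19a21_co.Sos
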